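import Mathlib
import Pool.Agent.MP_6504f0_pr.Main

set_option autoImplicit false

open Pool.Agent.MP_6504f0_pr

namespace Pool.Agent.Results.MP_6504f0_pr.CoverComparison

/-- Cover time comparison for random walk on dynamical percolation, on every finite connected
graph, with constant `C / (μ p)`. The choice `w = 1` is the walk that crosses each open edge at
rate one; `w = degree` is the walk that attempts a uniform neighbour at rate one. -/
theorem result : ∃ C : ℝ, 0 < C ∧
    ∀ (V : Type) [Fintype V] [DecidableEq V] [MeasurableSpace V] [DiscreteMeasurableSpace V]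
      (G : SimpleGraph V) [DecidableRel G.Adj], G.Connected →
      ∀ μ p : ℝ, 0 < μ → μ ≤ 1 → 0 < p → p ≤ 1 →
      ∀ w : V → ℝ, (∀ x, 1 ≤ w x) → (∀ x, w x ≤ max 1 (G.degree x : ℝ)) →
        Tdyn G μ p w ≤ ENNReal.ofReal (C / (μ * p)) * Tsrw G :=
  ⟨10 ^ 16, by positivity, fun _ _ _ _ _ G _ hG _ _ hμ hμ1 h0 h1 _ hw hw' =>
    cover_comparison G hG hμ hμ1 h0 h1 hw hw'⟩

end Pool.Agent.Results.MP_6504f0_pr.CoverComparison
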